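import Mathlib
import Pool.Agent.V11114.CostD

set_option autoImplicit false

/-!
MP_cf5fc4_an.  Let `1 ≤ m < n`, `A` an `n × n` complex matrix.  For all `B` (`n × m`) and
`F` (`m × n`) such that `A - B F` is stable,
`γ_decay (A - B F) ≤ 4 n² ‖A‖² ‖X₀‖`, `X₀ = ∫₀^∞ exp(t (A-BF)ᴴ) exp(t (A-BF)) dt`.
In particular the answer to Q1 (hence to Q2) is yes.
-/

namespace Pool.Agent.Results.MP_cf5fc4_an.CostBound

open Matrix Filter MeasureTheory NormedSpace
open scoped Matrix.Norms.L2Operator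

/-- `M` is stable: every eigenvalue has negative real part. -/
def Stable {n : ℕ} (M : Matrix (Fin n) (Fin n) ℂ) : Prop :=
  ∀ l ∈ spectrum ℂ M, l.re < 0

/-- the decay rate: the infimum (a minimum) of `- Re λ` over the eigenvalues `λ` of `M` -/
noncomputable def decayRate {n : ℕ} (M : Matrix (Fin n) (Fin n) ℂ) : ℝ :=
  sInf ((fun l : ℂ => -l.re) '' spectrum ℂ M)

/-- the cost matrix `∫₀^∞ exp(t Mᴴ) exp(t M) dt` -/
noncomputable def cost {n : ℕ} (M : Matrix (Fin n) (Fin n) ℂ) : Matrix (Fin n) (Fin n) ℂ :=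
  ∫ t in Set.Ioi (0 : ℝ), exp (t • Mᴴ) * exp (t • M)

/-- For a stable matrix the integral defining `cost` converges absolutely (sanity check,
not part of the result). -/
theorem cost_integrable {n : ℕ} (M : Matrix (Fin n) (Fin n) ℂ) (hM : Stable M) :
    IntegrableOn (fun t : ℝ => exp (t • Mᴴ) * exp (t • M)) (Set.Ioi 0) :=
  Pool.Agent.V11114.Cost.FF_int M hM

theorem bound {n m : ℕ} (hmn : m < n) (A : Matrix (Fin n) (Fin n) ℂ)
    (B : Matrix (Fin n) (Fin m) ℂ) (F : Matrix (Fin m) (Fin n) ℂ) (hS : Stable (A - B * F)) :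
    decayRate (A - B * F) ≤ 4 * (n : ℝ) ^ 2 * ‖A‖ ^ 2 * ‖cost (A - B * F)‖ := by
  rcases le_or_gt (decayRate (A - B * F)) 0 with h | h
  · exact le_trans h (by positivity)
  · refine Pool.Agent.V11114.Cost.main_bound A B F hmn _ h fun l hl => ?_
    have hb : BddBelow ((fun l : ℂ => -l.re) '' spectrum ℂ (A - B * F)) := by
      refine ⟨0, ?_⟩
      rintro _ ⟨z, hz, rfl⟩
      have := hS z hz
      show 0 ≤ -z.re
      linarith
    have := csInf_le hb (Set.mem_image_of_mem _ hl)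
    have h2 : decayRate (A - B * F) ≤ -l.re := this
    linarith

/-- The answer to Q1 is yes, with the linear function `G x = x / (4 n² ‖A‖² + 1)`; moreover
`γ_decay ≤ 4 n² ‖A‖² ‖X₀‖`. Norms are operator norms for the Euclidean norm. -/
theorem result (n m : ℕ) (_hm : 1 ≤ m) (hmn : m < n) (A : Matrix (Fin n) (Fin n) ℂ) :
    (∃ G : ℝ → ℝ, Tendsto G atTop atTop ∧
      ∀ (B : Matrix (Fin n) (Fin m) ℂ) (F : Matrix (Fin m) (Fin n) ℂ), Stable (A - B * F) →
        G (decayRate (A - B * F)) ≤ ‖cost (A - B * F)‖) ∧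
    ∀ (B : Matrix (Fin n) (Fin m) ℂ) (F : Matrix (Fin m) (Fin n) ℂ), Stable (A - B * F) →
      decayRate (A - B * F) ≤ 4 * (n : ℝ) ^ 2 * ‖A‖ ^ 2 * ‖cost (A - B * F)‖ := by
  refine ⟨⟨fun x => x / (4 * (n : ℝ) ^ 2 * ‖A‖ ^ 2 + 1), ?_, fun B F hS => ?_⟩,
    fun B F hS => bound hmn A B F hS⟩
  · exact tendsto_id.atTop_div_const (by positivity)
  · rw [div_le_iff₀ (by positivity)]
    have h1 := bound hmn A B F hS
    have h2 := norm_nonneg (cost (A - B * F))
    nlinarith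

end Pool.Agent.Results.MP_cf5fc4_an.CostBound
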